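import Pool.Agent.helper67.DL.SpecL

/-! Project dl (MP_4caea3_gt), module WI: the Weitzenböck identity. -/

namespace Pool.Agent.DL

open Matrix Complex
open scoped ComplexOrder

noncomputable section

/-! ### First order calculus -/

/-- Both derivatives: `ε = -1` is `∂`, `ε = 1` is `∂̄`. -/
def WIdd (ε : ℂ) (f : ℂ → ℂ) (z : ℂ) : ℂ := (fderiv ℝ f z 1 + ε * (I * fderiv ℝ f z I)) / 2

/-- Entrywise. -/
def WImd {m n : ℕ} (ε : ℂ) (F : ℂ → Matrix (Fin m) (Fin n) ℂ) (z : ℂ) :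
    Matrix (Fin m) (Fin n) ℂ := Matrix.of fun a b => WIdd ε (fun w => F w a b) z

lemma WI_dz (f : ℂ → ℂ) (z : ℂ) : dz f z = WIdd (-1) f z := by
  simp only [dz, WIdd]; ring

lemma WI_dzb (f : ℂ → ℂ) (z : ℂ) : dzb f z = WIdd 1 f z := by
  simp only [dzb, WIdd]; ring

lemma WI_mdz {m n : ℕ} (F : ℂ → Matrix (Fin m) (Fin n) ℂ) (z : ℂ) : mdz F z = WImd (-1) F z := by
  ext a b
  simp only [mdz, WImd, Matrix.of_apply, WI_dz]

lemma WI_mdzb {m n : ℕ} (F : ℂ → Matrix (Fin m) (Fin n) ℂ) (z : ℂ) : mdzb F z = WImd 1 F z := by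
  ext a b
  simp only [mdzb, WImd, Matrix.of_apply, WI_dzb]

/-- Entrywise real differentiability. -/
def WID {m n : ℕ} (F : ℂ → Matrix (Fin m) (Fin n) ℂ) (z : ℂ) : Prop :=
  ∀ a b, DifferentiableAt ℝ (fun w => F w a b) z

lemma WIdd_congr {ε : ℂ} {f g : ℂ → ℂ} {z : ℂ} (h : f =ᶠ[nhds z] g) :
    WIdd ε f z = WIdd ε g z := by
  simp only [WIdd, h.fderiv_eq]

lemma WIdd_const (ε c z : ℂ) : WIdd ε (fun _ => c) z = 0 := by
  simp [WIdd]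

lemma WIdd_add {ε : ℂ} {f g : ℂ → ℂ} {z : ℂ} (hf : DifferentiableAt ℝ f z)
    (hg : DifferentiableAt ℝ g z) :
    WIdd ε (fun w => f w + g w) z = WIdd ε f z + WIdd ε g z := by
  have h : fderiv ℝ (fun w => f w + g w) z = fderiv ℝ f z + fderiv ℝ g z :=
    (hf.hasFDerivAt.add hg.hasFDerivAt).fderiv
  simp only [WIdd, h, _root_.add_apply]
  ring

lemma WIdd_sub {ε : ℂ} {f g : ℂ → ℂ} {z : ℂ} (hf : DifferentiableAt ℝ f z)
    (hg : DifferentiableAt ℝ g z) :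
    WIdd ε (fun w => f w - g w) z = WIdd ε f z - WIdd ε g z := by
  have h : fderiv ℝ (fun w => f w - g w) z = fderiv ℝ f z - fderiv ℝ g z :=
    (hf.hasFDerivAt.sub hg.hasFDerivAt).fderiv
  simp only [WIdd, h, _root_.sub_apply]
  ring

lemma WIdd_mul {ε : ℂ} {f g : ℂ → ℂ} {z : ℂ} (hf : DifferentiableAt ℝ f z)
    (hg : DifferentiableAt ℝ g z) :
    WIdd ε (fun w => f w * g w) z = WIdd ε f z * g z + f z * WIdd ε g z := by
  have h : fderiv ℝ (fun w => f w * g w) z = f z • fderiv ℝ g z + g z • fderiv ℝ f z :=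
    (hf.hasFDerivAt.mul hg.hasFDerivAt).fderiv
  simp only [WIdd, h, _root_.add_apply, _root_.smul_apply, smul_eq_mul]
  ring

lemma WIdd_sum {ι : Type*} (s : Finset ι) {ε : ℂ} {f : ι → ℂ → ℂ} {z : ℂ}
    (hf : ∀ i ∈ s, DifferentiableAt ℝ (f i) z) :
    WIdd ε (fun w => ∑ i ∈ s, f i w) z = ∑ i ∈ s, WIdd ε (f i) z := by
  classical
  induction s using Finset.induction_on with
  | empty => simp [WIdd]
  | insert a s ha ih =>
    have h1 : (fun w => ∑ i ∈ insert a s, f i w) = fun w => f a w + ∑ i ∈ s, f i w := by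
      funext w
      rw [Finset.sum_insert ha]
    have h2 : DifferentiableAt ℝ (fun w => ∑ i ∈ s, f i w) z :=
      DifferentiableAt.fun_sum fun i hi => hf i (Finset.mem_insert_of_mem hi)
    rw [h1, WIdd_add (hf a (Finset.mem_insert_self _ _)) h2, Finset.sum_insert ha,
      ih fun i hi => hf i (Finset.mem_insert_of_mem hi)]

/-- Conjugation exchanges the two derivatives. -/
lemma WIdd_conj (ε : ℝ) {f : ℂ → ℂ} {z : ℂ} (hf : DifferentiableAt ℝ f z) :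
    WIdd (ε : ℂ) (fun w => star (f w)) z = star (WIdd ((-ε : ℝ) : ℂ) f z) := by
  have h : fderiv ℝ (fun w => star (f w)) z = (conjCLE : ℂ →L[ℝ] ℂ).comp (fderiv ℝ f z) :=
    ((conjCLE : ℂ →L[ℝ] ℂ).hasFDerivAt.comp z hf.hasFDerivAt).fderiv
  simp only [WIdd, h, ContinuousLinearMap.comp_apply]
  show (star (fderiv ℝ f z 1) + (ε : ℂ) * (I * star (fderiv ℝ f z I))) / 2 = _
  simp only [star_div₀, star_add, star_mul', ofReal_neg, star_neg]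
  have h1 : star (I : ℂ) = -I := Complex.conj_I
  have h2 : star (2 : ℂ) = 2 := by simp
  have h3 : star ((ε : ℝ) : ℂ) = (ε : ℂ) := Complex.conj_ofReal ε
  rw [h1, h2, h3]
  ring

/-- Holomorphic functions. -/
lemma WIdd_holo (ε : ℂ) {f : ℂ → ℂ} {z : ℂ} (hf : DifferentiableAt ℂ f z) :
    WIdd ε f z = (1 - ε) / 2 * deriv f z := by
  have h : fderiv ℝ f z = (fderiv ℂ f z).restrictScalars ℝ :=
    (hf.hasFDerivAt.restrictScalars ℝ).fderiv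
  have h1 : fderiv ℂ f z I = I * deriv f z := by
    have := (fderiv ℂ f z).map_smul I 1
    rw [smul_eq_mul, mul_one] at this
    rw [this, smul_eq_mul, fderiv_apply_one_eq_deriv]
  simp only [WIdd, h, ContinuousLinearMap.coe_restrictScalars', fderiv_apply_one_eq_deriv, h1]
  linear_combination (ε * deriv f z / 2) * I_mul_I

/-! ### Matrix calculus -/

section MC
variable {m n k : ℕ}

lemma WImd_congr {ε : ℂ} {F G : ℂ → Matrix (Fin m) (Fin n) ℂ} {z : ℂ} (h : F =ᶠ[nhds z] G) :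
    WImd ε F z = WImd ε G z := by
  ext a b
  simp only [WImd, Matrix.of_apply]
  exact WIdd_congr (h.mono fun w hw => by show F w a b = G w a b; rw [hw])

lemma WImd_const (ε : ℂ) (M : Matrix (Fin m) (Fin n) ℂ) (z : ℂ) : WImd ε (fun _ => M) z = 0 := by
  ext a b
  simp only [WImd, Matrix.of_apply, Matrix.zero_apply]
  exact WIdd_const _ _ _

lemma WImd_add {ε : ℂ} {F G : ℂ → Matrix (Fin m) (Fin n) ℂ} {z : ℂ} (hF : WID F z)
    (hG : WID G z) : WImd ε (fun w => F w + G w) z = WImd ε F z + WImd ε G z := by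
  ext a b
  simp only [WImd, Matrix.of_apply, Matrix.add_apply]
  exact WIdd_add (hF a b) (hG a b)

lemma WImd_sub {ε : ℂ} {F G : ℂ → Matrix (Fin m) (Fin n) ℂ} {z : ℂ} (hF : WID F z)
    (hG : WID G z) : WImd ε (fun w => F w - G w) z = WImd ε F z - WImd ε G z := by
  ext a b
  simp only [WImd, Matrix.of_apply, Matrix.sub_apply]
  exact WIdd_sub (hF a b) (hG a b)

lemma WID_mul {F : ℂ → Matrix (Fin m) (Fin n) ℂ} {G : ℂ → Matrix (Fin n) (Fin k) ℂ} {z : ℂ}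
    (hF : WID F z) (hG : WID G z) : WID (fun w => F w * G w) z := by
  intro a b
  simp only [Matrix.mul_apply]
  exact DifferentiableAt.fun_sum fun i _ => (hF a i).mul (hG i b)

lemma WID_add {F G : ℂ → Matrix (Fin m) (Fin n) ℂ} {z : ℂ}
    (hF : WID F z) (hG : WID G z) : WID (fun w => F w + G w) z :=
  fun a b => (hF a b).add (hG a b)

lemma WID_sub {F G : ℂ → Matrix (Fin m) (Fin n) ℂ} {z : ℂ}
    (hF : WID F z) (hG : WID G z) : WID (fun w => F w - G w) z :=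
  fun a b => (hF a b).sub (hG a b)

lemma WImd_mul {ε : ℂ} {F : ℂ → Matrix (Fin m) (Fin n) ℂ} {G : ℂ → Matrix (Fin n) (Fin k) ℂ}
    {z : ℂ} (hF : WID F z) (hG : WID G z) :
    WImd ε (fun w => F w * G w) z = WImd ε F z * G z + F z * WImd ε G z := by
  ext a b
  simp only [WImd, Matrix.of_apply, Matrix.mul_apply, Matrix.add_apply]
  rw [WIdd_sum (f := fun i w => F w a i * G w i b) _ fun i _ => (hF a i).mul (hG i b),
    ← Finset.sum_add_distrib]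
  exact Finset.sum_congr rfl fun i _ => WIdd_mul (hF a i) (hG i b)

lemma WIdd_trace {ε : ℂ} {F : ℂ → Matrix (Fin m) (Fin m) ℂ} {z : ℂ} (hF : WID F z) :
    WIdd ε (fun w => trace (F w)) z = trace (WImd ε F z) := by
  simp only [Matrix.trace, Matrix.diag_apply, WImd, Matrix.of_apply]
  exact WIdd_sum _ fun i _ => hF i i

lemma WImd_star (ε : ℝ) {F : ℂ → Matrix (Fin m) (Fin n) ℂ} {z : ℂ} (hF : WID F z) :
    WImd (ε : ℂ) (fun w => (F w)ᴴ) z = (WImd ((-ε : ℝ) : ℂ) F z)ᴴ := by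
  ext a b
  simp only [WImd, Matrix.of_apply, Matrix.conjTranspose_apply]
  exact WIdd_conj ε (hF b a)

lemma WID_star {F : ℂ → Matrix (Fin m) (Fin n) ℂ} {z : ℂ} (hF : WID F z) :
    WID (fun w => (F w)ᴴ) z := by
  intro a b
  simp only [Matrix.conjTranspose_apply]
  exact (conjCLE : ℂ →L[ℝ] ℂ).differentiableAt.comp z (hF b a)

end MC

/-! ### Smoothness -/

/-- Entrywise smoothness on a set. -/
def WIC {m n : ℕ} (r : ℕ) (Ω : Set ℂ) (F : ℂ → Matrix (Fin m) (Fin n) ℂ) : Prop :=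
  ∀ a b, ContDiffOn ℝ r (fun z => F z a b) Ω

section SM
variable {m n k r : ℕ} {Ω : Set ℂ}

lemma WIC_mul {F : ℂ → Matrix (Fin m) (Fin n) ℂ} {G : ℂ → Matrix (Fin n) (Fin k) ℂ}
    (hF : WIC r Ω F) (hG : WIC r Ω G) : WIC r Ω (fun w => F w * G w) := by
  intro a b
  simp only [Matrix.mul_apply]
  exact ContDiffOn.sum fun i _ => (hF a i).mul (hG i b)

lemma WIC_add {F G : ℂ → Matrix (Fin m) (Fin n) ℂ}
    (hF : WIC r Ω F) (hG : WIC r Ω G) : WIC r Ω (fun w => F w + G w) :=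
  fun a b => (hF a b).add (hG a b)

lemma WIC_sub {F G : ℂ → Matrix (Fin m) (Fin n) ℂ}
    (hF : WIC r Ω F) (hG : WIC r Ω G) : WIC r Ω (fun w => F w - G w) :=
  fun a b => (hF a b).sub (hG a b)

lemma WIC_star {F : ℂ → Matrix (Fin m) (Fin n) ℂ} (hF : WIC r Ω F) :
    WIC r Ω (fun w => (F w)ᴴ) := by
  intro a b
  simp only [Matrix.conjTranspose_apply]
  exact (conjCLE : ℂ →L[ℝ] ℂ).contDiff.comp_contDiffOn (hF b a)

lemma WIC_det {F : ℂ → Matrix (Fin m) (Fin m) ℂ} (hF : WIC r Ω F) :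
    ContDiffOn ℝ r (fun w => (F w).det) Ω := by
  simp only [Matrix.det_apply]
  refine ContDiffOn.sum fun σ _ => ?_
  have h : ContDiffOn ℝ r (fun w => ∏ i, F w (σ i) i) Ω :=
    contDiffOn_prod fun i _ => hF (σ i) i
  rcases Int.units_eq_one_or (Equiv.Perm.sign σ) with h1 | h1
  · simpa [h1] using h
  · simpa [h1] using h.neg

lemma WIC_inv {F : ℂ → Matrix (Fin m) (Fin m) ℂ} (hF : WIC r Ω F)
    (h0 : ∀ z ∈ Ω, (F z).det ≠ 0) : WIC r Ω (fun w => (F w)⁻¹) := by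
  intro a b
  have h1 : (fun w => (F w)⁻¹ a b) = fun w => (F w).det⁻¹ * ((F w).adjugate a b) := by
    funext w
    rw [Matrix.inv_def, Matrix.smul_apply, smul_eq_mul, Ring.inverse_eq_inv']
  rw [h1]
  refine ContDiffOn.mul ((WIC_det hF).inv h0) ?_
  simp only [Matrix.adjugate_apply]
  apply WIC_det
  intro c d
  by_cases hc : c = b
  · subst hc
    simp only [Matrix.updateRow_self]
    exact contDiffOn_const
  · simp only [Matrix.updateRow_ne hc]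
    exact hF c d

lemma WIC_at {F : ℂ → Matrix (Fin m) (Fin n) ℂ} (hΩ : IsOpen Ω) (hr : r ≠ 0)
    (hF : WIC r Ω F) {z : ℂ} (hz : z ∈ Ω) : WID F z := fun a b =>
  ((hF a b).contDiffAt (hΩ.mem_nhds hz)).differentiableAt (by exact_mod_cast hr)

lemma WIC_md (ε : ℂ) {F : ℂ → Matrix (Fin m) (Fin n) ℂ} (hΩ : IsOpen Ω)
    (hF : WIC (r + 1) Ω F) : WIC r Ω (WImd ε F) := by
  intro a b
  simp only [WImd, Matrix.of_apply, WIdd]
  have h1 : ContDiffOn ℝ r (fderiv ℝ fun w => F w a b) Ω :=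
    (hF a b).fderiv_of_isOpen hΩ (by push_cast; exact le_rfl)
  have h2 : ∀ v : ℂ, ContDiffOn ℝ r (fun z => fderiv ℝ (fun w => F w a b) z v) Ω :=
    fun v => h1.clm_apply contDiffOn_const
  exact ((h2 1).add (contDiffOn_const.mul (contDiffOn_const.mul (h2 I)))).div_const 2

lemma WIC_holo {F : ℂ → Matrix (Fin m) (Fin n) ℂ} (hΩ : IsOpen Ω) (hF : HM Ω F) (r : ℕ) :
    WIC r Ω F := fun a b => by
  have h : ContDiffOn ℂ (r : ℕ∞) (fun z => F z a b) Ω := (hF a b).contDiffOn hΩ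
  exact_mod_cast h.restrict_scalars ℝ

end SM

/-! ### Norms -/

section NN
variable {m n : ℕ}

/-- The inner product. -/
def WIip (H₁ : Matrix (Fin n) (Fin n) ℂ) (H₂ : Matrix (Fin m) (Fin m) ℂ)
    (X Y : Matrix (Fin m) (Fin n) ℂ) : ℂ := trace (H₁⁻¹ * Yᴴ * H₂ * X)

lemma WI_herm {H : Matrix (Fin n) (Fin n) ℂ} (hH : H.PosDef) : Hᴴ = H := hH.isHermitian

lemma WI_unit {H : Matrix (Fin n) (Fin n) ℂ} (hH : H.PosDef) : IsUnit H.det :=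
  isUnit_iff_ne_zero.2 hH.det_pos.ne'

lemma WI_inv_herm {H : Matrix (Fin n) (Fin n) ℂ} (hH : H.PosDef) : (H⁻¹)ᴴ = H⁻¹ := by
  rw [Matrix.conjTranspose_nonsing_inv, WI_herm hH]

open scoped MatrixOrder in
/-- Decomposition. -/
lemma WI_dec {H : Matrix (Fin n) (Fin n) ℂ} (hH : H.PosDef) :
    ∃ L : Matrix (Fin n) (Fin n) ℂ, IsUnit L.det ∧ H = Lᴴ * L := by
  obtain ⟨L, hL'⟩ := CStarAlgebra.nonneg_iff_eq_star_mul_self.1 hH.posSemidef.nonneg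
  have hL : H = Lᴴ * L := hL'
  refine ⟨L, ?_, hL⟩
  have h := WI_unit hH
  rw [hL, Matrix.det_mul] at h
  exact isUnit_of_mul_isUnit_right h

lemma WI_ip_eq {H₁ : Matrix (Fin n) (Fin n) ℂ} {H₂ : Matrix (Fin m) (Fin m) ℂ}
    (h1 : H₁.PosDef) (h2 : H₂.PosDef) : ∃ T : Matrix (Fin m) (Fin n) ℂ → Matrix (Fin m) (Fin n) ℂ,
    ∀ X Y, WIip H₁ H₂ X Y = ∑ a, ∑ b, star (T Y a b) * T X a b := by
  obtain ⟨L, hL, e1⟩ := WI_dec h1
  obtain ⟨M, hM, e2⟩ := WI_dec h2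
  refine ⟨fun X => M * X * L⁻¹, fun X Y => ?_⟩
  have h3 : H₁⁻¹ = L⁻¹ * (L⁻¹)ᴴ := by
    rw [e1, Matrix.mul_inv_rev, Matrix.conjTranspose_nonsing_inv]
  have h4 : WIip H₁ H₂ X Y = trace ((M * Y * L⁻¹)ᴴ * (M * X * L⁻¹)) := by
    have h5 : WIip H₁ H₂ X Y = trace (L⁻¹ * ((L⁻¹)ᴴ * Yᴴ * Mᴴ * (M * X))) := by
      rw [WIip, h3, e2]
      simp only [Matrix.mul_assoc]
    rw [h5, Matrix.trace_mul_comm]
    simp only [Matrix.conjTranspose_mul, Matrix.mul_assoc]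
  rw [h4, Matrix.trace]
  simp only [Matrix.diag_apply, Matrix.mul_apply (M := (M * Y * L⁻¹)ᴴ), Matrix.conjTranspose_apply]
  exact Finset.sum_comm

lemma WI_nn2 {H₁ : Matrix (Fin n) (Fin n) ℂ} {H₂ : Matrix (Fin m) (Fin m) ℂ}
    (X : Matrix (Fin m) (Fin n) ℂ) : nn2 H₁ H₂ X = (WIip H₁ H₂ X X).re := rfl

lemma WI_real {H₁ : Matrix (Fin n) (Fin n) ℂ} {H₂ : Matrix (Fin m) (Fin m) ℂ}
    (h1 : H₁.PosDef) (h2 : H₂.PosDef) (X : Matrix (Fin m) (Fin n) ℂ) :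
    ((nn2 H₁ H₂ X : ℝ) : ℂ) = WIip H₁ H₂ X X ∧ 0 ≤ nn2 H₁ H₂ X := by
  obtain ⟨T, hT⟩ := WI_ip_eq h1 h2
  have h : WIip H₁ H₂ X X = ((∑ a, ∑ b, ‖T X a b‖ ^ 2 : ℝ) : ℂ) := by
    rw [hT X X]
    push_cast
    refine Finset.sum_congr rfl fun a _ => Finset.sum_congr rfl fun b _ => ?_
    exact Complex.conj_mul' _
  rw [WI_nn2, h, Complex.ofReal_re]
  exact ⟨rfl, Finset.sum_nonneg fun a _ => Finset.sum_nonneg fun b _ => by positivity⟩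

/-- Cauchy-Schwarz. -/
lemma WI_cs {H₁ : Matrix (Fin n) (Fin n) ℂ} {H₂ : Matrix (Fin m) (Fin m) ℂ}
    (h1 : H₁.PosDef) (h2 : H₂.PosDef) (X Y : Matrix (Fin m) (Fin n) ℂ) :
    ‖WIip H₁ H₂ X Y‖ ^ 2 ≤ nn2 H₁ H₂ Y * nn2 H₁ H₂ X := by
  obtain ⟨T, hT⟩ := WI_ip_eq h1 h2
  have hn : ∀ Z, nn2 H₁ H₂ Z = ∑ p : Fin m × Fin n, ‖T Z p.1 p.2‖ ^ 2 := by
    intro Z
    have h : WIip H₁ H₂ Z Z = ((∑ p : Fin m × Fin n, ‖T Z p.1 p.2‖ ^ 2 : ℝ) : ℂ) := by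
      rw [hT Z Z, Fintype.sum_prod_type]
      push_cast
      refine Finset.sum_congr rfl fun a _ => Finset.sum_congr rfl fun b _ => ?_
      exact Complex.conj_mul' _
    rw [WI_nn2, h, Complex.ofReal_re]
  have h3 : WIip H₁ H₂ X Y = ∑ p : Fin m × Fin n, star (T Y p.1 p.2) * T X p.1 p.2 := by
    rw [hT X Y, Fintype.sum_prod_type]
  have h4 : ‖WIip H₁ H₂ X Y‖ ≤ ∑ p : Fin m × Fin n, ‖T Y p.1 p.2‖ * ‖T X p.1 p.2‖ := by
    rw [h3]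
    refine (norm_sum_le _ _).trans (Finset.sum_le_sum fun p _ => ?_)
    rw [norm_mul, norm_star]
  calc ‖WIip H₁ H₂ X Y‖ ^ 2 ≤ (∑ p : Fin m × Fin n, ‖T Y p.1 p.2‖ * ‖T X p.1 p.2‖) ^ 2 :=
        pow_le_pow_left₀ (norm_nonneg _) h4 2
    _ ≤ (∑ p : Fin m × Fin n, ‖T Y p.1 p.2‖ ^ 2) * ∑ p : Fin m × Fin n, ‖T X p.1 p.2‖ ^ 2 :=
        Finset.sum_mul_sq_le_sq_mul_sq _ _ _
    _ = _ := by rw [hn Y, hn X]

end NN

/-! ### The identity -/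

section MAIN
variable {m n : ℕ}

/-- The covariant derivative of `P`. -/
def WIcov (H₁ : ℂ → Matrix (Fin n) (Fin n) ℂ) (H₂ : ℂ → Matrix (Fin m) (Fin m) ℂ)
    (P : ℂ → Matrix (Fin m) (Fin n) ℂ) (z : ℂ) : Matrix (Fin m) (Fin n) ℂ :=
  WImd (-1) P z + (H₂ z)⁻¹ * WImd (-1) H₂ z * P z - P z * ((H₁ z)⁻¹ * WImd (-1) H₁ z)

lemma WI_md_inv {ε : ℂ} {H : ℂ → Matrix (Fin n) (Fin n) ℂ} {Ω : Set ℂ} (hΩ : IsOpen Ω)
    (hH : WIC 1 Ω H) (h0 : ∀ z ∈ Ω, IsUnit (H z).det) {z : ℂ} (hz : z ∈ Ω) :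
    WImd ε (fun w => (H w)⁻¹) z = -((H z)⁻¹ * WImd ε H z * (H z)⁻¹) := by
  have hd : WID H z := WIC_at hΩ one_ne_zero hH hz
  have hi : WID (fun w => (H w)⁻¹) z :=
    WIC_at hΩ one_ne_zero (WIC_inv hH fun z hz => (h0 z hz).ne_zero) hz
  have h1 : WImd ε (fun w => (H w)⁻¹ * H w) z = 0 := by
    rw [WImd_congr (G := fun _ => (1 : Matrix (Fin n) (Fin n) ℂ)), WImd_const]
    filter_upwards [hΩ.mem_nhds hz] with w hw
    exact Matrix.nonsing_inv_mul _ (h0 w hw)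
  rw [WImd_mul hi hd] at h1
  have h2 : WImd ε (fun w => (H w)⁻¹) z * H z * (H z)⁻¹ = -((H z)⁻¹ * WImd ε H z) * (H z)⁻¹ := by
    rw [eq_neg_of_add_eq_zero_left h1]
  rw [Matrix.mul_assoc, Matrix.mul_nonsing_inv _ (h0 z hz), Matrix.mul_one, Matrix.neg_mul] at h2
  exact h2

/-- First derivative of the norm. -/
lemma WI_first {Ω : Set ℂ} (hΩ : IsOpen Ω) {H₁ : ℂ → Matrix (Fin n) (Fin n) ℂ}
    {H₂ : ℂ → Matrix (Fin m) (Fin m) ℂ} {P : ℂ → Matrix (Fin m) (Fin n) ℂ} (hP : HM Ω P)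
    (c1 : WIC 2 Ω H₁) (c2 : WIC 2 Ω H₂) (p1 : ∀ z ∈ Ω, (H₁ z).PosDef)
    (p2 : ∀ z ∈ Ω, (H₂ z).PosDef) {z : ℂ} (hz : z ∈ Ω) :
    dz (fun w => ((nn2 (H₁ w) (H₂ w) (P w) : ℝ) : ℂ)) z
      = trace ((H₁ z)⁻¹ * (P z)ᴴ * H₂ z * WIcov H₁ H₂ P z) := by
  have u1 : ∀ z ∈ Ω, IsUnit (H₁ z).det := fun z hz => WI_unit (p1 z hz)
  have u2 : ∀ z ∈ Ω, IsUnit (H₂ z).det := fun z hz => WI_unit (p2 z hz)
  have cP : WIC 2 Ω P := WIC_holo hΩ hP 2
  have d1 : WID (fun w => (H₁ w)⁻¹) z :=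
    WIC_at hΩ two_ne_zero (WIC_inv c1 fun z hz => (u1 z hz).ne_zero) hz
  have d2 : WID H₂ z := WIC_at hΩ two_ne_zero c2 hz
  have dP : WID P z := WIC_at hΩ two_ne_zero cP hz
  have dQ : WID (fun w => (P w)ᴴ) z := WID_star dP
  have c1' : WIC 1 Ω H₁ := fun a b => (c1 a b).of_le (by norm_num)
  rw [WI_dz, WIdd_congr (g := fun w => trace ((H₁ w)⁻¹ * (P w)ᴴ * H₂ w * P w))]
  swap
  · filter_upwards [hΩ.mem_nhds hz] with w hw
    exact (WI_real (p1 w hw) (p2 w hw) (P w)).1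
  have hQ0 : WImd (-1) (fun w => (P w)ᴴ) z = 0 := by
    have h := WImd_star (-1) dP
    push_cast at h
    rw [h, neg_neg]
    have h2 : WImd 1 P z = 0 := by
      ext a b
      simp only [WImd, Matrix.of_apply, Matrix.zero_apply]
      rw [WIdd_holo 1 ((hP a b).differentiableAt (hΩ.mem_nhds hz))]
      ring
    rw [h2, Matrix.conjTranspose_zero]
  rw [WIdd_trace (WID_mul (WID_mul (WID_mul d1 dQ) d2) dP),
    WImd_mul (WID_mul (WID_mul d1 dQ) d2) dP, WImd_mul (WID_mul d1 dQ) d2, WImd_mul d1 dQ, hQ0,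
    WI_md_inv hΩ c1' u1 hz]
  have e1 : H₂ z * ((H₂ z)⁻¹ * WImd (-1) H₂ z * P z) = WImd (-1) H₂ z * P z := by
    rw [← Matrix.mul_assoc, ← Matrix.mul_assoc, Matrix.mul_nonsing_inv _ (u2 z hz), Matrix.one_mul]
  have e2 : trace ((H₁ z)⁻¹ * WImd (-1) H₁ z * (H₁ z)⁻¹ * (P z)ᴴ * H₂ z * P z)
      = trace ((H₁ z)⁻¹ * (P z)ᴴ * H₂ z * (P z * ((H₁ z)⁻¹ * WImd (-1) H₁ z))) := by
    have : (H₁ z)⁻¹ * WImd (-1) H₁ z * (H₁ z)⁻¹ * (P z)ᴴ * H₂ z * P z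
        = ((H₁ z)⁻¹ * WImd (-1) H₁ z) * ((H₁ z)⁻¹ * (P z)ᴴ * H₂ z * P z) := by
      simp only [Matrix.mul_assoc]
    rw [this, Matrix.trace_mul_comm]
    simp only [Matrix.mul_assoc]
  rw [WIcov, Matrix.mul_sub, Matrix.mul_add, Matrix.mul_assoc ((H₁ z)⁻¹ * (P z)ᴴ) (H₂ z)
    ((H₂ z)⁻¹ * WImd (-1) H₂ z * P z), e1, Matrix.trace_sub, Matrix.trace_add, ← e2]
  simp only [Matrix.mul_zero, add_zero, Matrix.neg_mul, Matrix.add_mul, Matrix.trace_add,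
    Matrix.trace_neg, Matrix.mul_assoc]
  ring

/-- Algebra: adjointness. -/
lemma WI_alg {H₁ A₁ : Matrix (Fin n) (Fin n) ℂ} {H₂ A₂ : Matrix (Fin m) (Fin m) ℂ}
    {P : Matrix (Fin m) (Fin n) ℂ} (p1 : H₁.PosDef) (p2 : H₂.PosDef) (h : P * A₁ = A₂ * P) :
    trace (H₁⁻¹ * Pᴴ * H₂ * ((A₂ * adj H₂ A₂ - adj H₂ A₂ * A₂) * P
      - P * (A₁ * adj H₁ A₁ - adj H₁ A₁ * A₁)))
    = WIip H₁ H₂ (P * adj H₁ A₁ - adj H₂ A₂ * P) (P * adj H₁ A₁ - adj H₂ A₂ * P) := by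
  set E := P * adj H₁ A₁ - adj H₂ A₂ * P with hE
  have u1 := WI_unit p1
  have u2 := WI_unit p2
  have e1 : (A₂ * adj H₂ A₂ - adj H₂ A₂ * A₂) * P - P * (A₁ * adj H₁ A₁ - adj H₁ A₁ * A₁)
      = E * A₁ - A₂ * E := by
    have k1 : adj H₂ A₂ * A₂ * P = adj H₂ A₂ * P * A₁ := by
      rw [Matrix.mul_assoc, ← h, Matrix.mul_assoc]
    have k2 : P * (A₁ * adj H₁ A₁) = A₂ * (P * adj H₁ A₁) := by
      rw [← Matrix.mul_assoc, h, Matrix.mul_assoc]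
    rw [hE, Matrix.sub_mul, Matrix.mul_sub, k1, k2, Matrix.sub_mul, Matrix.mul_sub]
    simp only [Matrix.mul_assoc]
    abel
  have e2 : Eᴴ = H₁ * A₁ * H₁⁻¹ * Pᴴ - Pᴴ * (H₂ * A₂ * H₂⁻¹) := by
    rw [hE]
    simp only [adj, Matrix.conjTranspose_sub, Matrix.conjTranspose_mul,
      Matrix.conjTranspose_conjTranspose, WI_herm p1, WI_herm p2, WI_inv_herm p1, WI_inv_herm p2,
      Matrix.mul_assoc]
  rw [e1, WIip, e2, Matrix.mul_sub, Matrix.trace_sub]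
  have e3 : trace (H₁⁻¹ * Pᴴ * H₂ * (E * A₁)) = trace (H₁⁻¹ * (H₁ * A₁ * H₁⁻¹ * Pᴴ) * H₂ * E) := by
    have k1 : H₁⁻¹ * (H₁ * A₁ * H₁⁻¹ * Pᴴ) = A₁ * (H₁⁻¹ * Pᴴ) := by
      rw [Matrix.mul_assoc H₁, Matrix.mul_assoc H₁, ← Matrix.mul_assoc H₁⁻¹ H₁,
        Matrix.nonsing_inv_mul _ u1, Matrix.one_mul, Matrix.mul_assoc]
    rw [k1, ← Matrix.mul_assoc (H₁⁻¹ * Pᴴ * H₂), Matrix.trace_mul_comm]
    simp only [Matrix.mul_assoc]
  have e4 : H₁⁻¹ * (Pᴴ * (H₂ * A₂ * H₂⁻¹)) * H₂ * E = H₁⁻¹ * Pᴴ * H₂ * (A₂ * E) := by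
    have k1 : H₂ * A₂ * H₂⁻¹ * H₂ = H₂ * A₂ := by
      rw [Matrix.mul_assoc, Matrix.nonsing_inv_mul _ u2, Matrix.mul_one]
    calc H₁⁻¹ * (Pᴴ * (H₂ * A₂ * H₂⁻¹)) * H₂ * E = H₁⁻¹ * Pᴴ * (H₂ * A₂ * H₂⁻¹ * H₂) * E := by
          simp only [Matrix.mul_assoc]
      _ = _ := by rw [k1]; simp only [Matrix.mul_assoc]
  rw [e3]
  clear_value E
  rw [Matrix.mul_sub, Matrix.sub_mul, Matrix.sub_mul, Matrix.trace_sub, e4]

theorem WI (hLW : LW_stmt) : WI_stmt := by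
  intro m n Ω W A₁ H₁ A₂ H₂ P hΩ hA₁ hA₂ hP hL₁ hL₂ hint
  have c1 : WIC 2 Ω H₁ := hL₁.smooth
  have c2 : WIC 2 Ω H₂ := hL₂.smooth
  have p1 := hL₁.pos
  have p2 := hL₂.pos
  have u1 : ∀ z ∈ Ω, IsUnit (H₁ z).det := fun z hz => WI_unit (p1 z hz)
  have u2 : ∀ z ∈ Ω, IsUnit (H₂ z).det := fun z hz => WI_unit (p2 z hz)
  have cP : WIC 2 Ω P := WIC_holo hΩ hP 2
  have ci1 : WIC 2 Ω (fun w => (H₁ w)⁻¹) := WIC_inv c1 fun z hz => (u1 z hz).ne_zero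
  have ci2 : WIC 2 Ω (fun w => (H₂ w)⁻¹) := WIC_inv c2 fun z hz => (u2 z hz).ne_zero
  have hsm : ContDiffOn ℝ 2 (fun z => nn2 (H₁ z) (H₂ z) (P z)) Ω := by
    have h := WIC_mul (WIC_mul (WIC_mul ci1 (WIC_star cP)) c2) cP
    have h2 : ContDiffOn ℝ 2 (fun w => trace ((H₁ w)⁻¹ * (P w)ᴴ * H₂ w * P w)) Ω := by
      simp only [Matrix.trace, Matrix.diag_apply]
      exact ContDiffOn.sum fun i _ => h i i
    exact reCLM.contDiff.comp_contDiffOn h2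
  refine ⟨hsm, fun z hz => ?_⟩
  have ecov : ∀ w, mdz P w + (H₂ w)⁻¹ * mdz H₂ w * P w - P w * ((H₁ w)⁻¹ * mdz H₁ w)
      = WIcov H₁ H₂ P w := by
    intro w
    rw [WIcov, WI_mdz, WI_mdz, WI_mdz]
  rw [ecov z]
  have hfirst : ∀ w ∈ Ω, dz (fun w => ((nn2 (H₁ w) (H₂ w) (P w) : ℝ) : ℂ)) w
      = trace ((H₁ w)⁻¹ * (P w)ᴴ * H₂ w * WIcov H₁ H₂ P w) :=
    fun w hw => WI_first hΩ hP c1 c2 p1 p2 hw
  refine ⟨(WI_real (p1 z hz) (p2 z hz) _).2, (WI_real (p1 z hz) (p2 z hz) _).2, ?_, ?_⟩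
  · -- the second derivative
    have c1' : WIC 1 Ω H₁ := fun a b => (c1 a b).of_le (by norm_num)
    have c2' : WIC 1 Ω H₂ := fun a b => (c2 a b).of_le (by norm_num)
    have cP' : WIC 1 Ω P := WIC_holo hΩ hP 1
    have ci1' : WIC 1 Ω (fun w => (H₁ w)⁻¹) := WIC_inv c1' fun z hz => (u1 z hz).ne_zero
    have ci2' : WIC 1 Ω (fun w => (H₂ w)⁻¹) := WIC_inv c2' fun z hz => (u2 z hz).ne_zero
    have m1 : WIC 1 Ω (WImd (-1) H₁) := WIC_md (-1) hΩ c1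
    have m2 : WIC 1 Ω (WImd (-1) H₂) := WIC_md (-1) hΩ c2
    have mP : WIC 1 Ω (WImd (-1) P) := WIC_md (-1) hΩ cP
    have t1 : WIC 1 Ω (fun w => (H₁ w)⁻¹ * WImd (-1) H₁ w) := WIC_mul ci1' m1
    have t2 : WIC 1 Ω (fun w => (H₂ w)⁻¹ * WImd (-1) H₂ w) := WIC_mul ci2' m2
    have D1 : WID (fun w => (H₁ w)⁻¹) z := WIC_at hΩ one_ne_zero ci1' hz
    have D2 : WID H₂ z := WIC_at hΩ one_ne_zero c2' hz
    have dP : WID P z := WIC_at hΩ one_ne_zero cP' hz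
    have dQ : WID (fun w => (P w)ᴴ) z := WID_star dP
    have dt1 : WID (fun w => (H₁ w)⁻¹ * WImd (-1) H₁ w) z := WIC_at hΩ one_ne_zero t1 hz
    have dt2 : WID (fun w => (H₂ w)⁻¹ * WImd (-1) H₂ w) z := WIC_at hΩ one_ne_zero t2 hz
    have dmP : WID (WImd (-1) P) z := WIC_at hΩ one_ne_zero mP hz
    have dC : WID (WIcov H₁ H₂ P) z := by
      have : WIcov H₁ H₂ P = fun w => WImd (-1) P w + (H₂ w)⁻¹ * WImd (-1) H₂ w * P w
        - P w * ((H₁ w)⁻¹ * WImd (-1) H₁ w) := rfl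
      rw [this]
      exact WID_sub (WID_add dmP (WID_mul dt2 dP)) (WID_mul dP dt1)
    have hP1 : WImd 1 P z = 0 := by
      ext a b
      simp only [WImd, Matrix.of_apply, Matrix.zero_apply]
      rw [WIdd_holo 1 ((hP a b).differentiableAt (hΩ.mem_nhds hz))]
      ring
    have hPP : WImd 1 (WImd (-1) P) z = 0 := by
      ext a b
      simp only [WImd, Matrix.of_apply, Matrix.zero_apply]
      have h1 : (fun w => WIdd (-1) (fun v => P v a b) w) =ᶠ[nhds z] deriv fun v => P v a b := by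
        filter_upwards [hΩ.mem_nhds hz] with w hw
        rw [WIdd_holo (-1) ((hP a b).differentiableAt (hΩ.mem_nhds hw))]
        ring
      rw [WIdd_congr h1, WIdd_holo 1 (((hP a b).deriv hΩ).differentiableAt (hΩ.mem_nhds hz))]
      ring
    have hcov : WImd 1 (WIcov H₁ H₂ P) z =
        ((W z : ℝ) : ℂ) • ((A₂ z * adj (H₂ z) (A₂ z) - adj (H₂ z) (A₂ z) * A₂ z) * P z
          - P z * (A₁ z * adj (H₁ z) (A₁ z) - adj (H₁ z) (A₁ z) * A₁ z)) := by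
      have h1 : WIcov H₁ H₂ P = fun w => (WImd (-1) P w + (H₂ w)⁻¹ * WImd (-1) H₂ w * P w)
        - P w * ((H₁ w)⁻¹ * WImd (-1) H₁ w) := rfl
      have q1 := hL₁.eq z hz
      have q2 := hL₂.eq z hz
      rw [WI_mdzb] at q1 q2
      have r1 : (fun w => (H₁ w)⁻¹ * mdz H₁ w) = fun w => (H₁ w)⁻¹ * WImd (-1) H₁ w := by
        funext w
        rw [WI_mdz]
      have r2 : (fun w => (H₂ w)⁻¹ * mdz H₂ w) = fun w => (H₂ w)⁻¹ * WImd (-1) H₂ w := by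
        funext w
        rw [WI_mdz]
      rw [r1] at q1
      rw [r2] at q2
      rw [h1, WImd_sub (WID_add dmP (WID_mul dt2 dP)) (WID_mul dP dt1),
        WImd_add dmP (WID_mul dt2 dP), hPP, WImd_mul dt2 dP, WImd_mul dP dt1, hP1, q1, q2]
      simp only [zero_add, Matrix.mul_zero, Matrix.zero_mul, add_zero, Matrix.smul_mul,
        Matrix.mul_smul]
      rw [smul_sub]
    have hQ1 : WImd 1 (fun w => (P w)ᴴ) z = (WImd (-1) P z)ᴴ := by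
      have h := WImd_star 1 dP
      push_cast at h
      exact h
    have hH : ∀ {k : ℕ} {H : ℂ → Matrix (Fin k) (Fin k) ℂ}, (∀ z ∈ Ω, (H z).PosDef) →
        WID H z → WImd 1 H z = (WImd (-1) H z)ᴴ := by
      intro k H hp hd
      have h := WImd_star 1 hd
      push_cast at h
      rw [← h]
      apply WImd_congr
      filter_upwards [hΩ.mem_nhds hz] with w hw
      exact (WI_herm (hp w hw)).symm
    have hH1 := hH p1 (WIC_at hΩ one_ne_zero c1' hz)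
    have hH2 := hH p2 D2
    have hstar : (WIcov H₁ H₂ P z)ᴴ * H₂ z = (WImd (-1) P z)ᴴ * H₂ z + (P z)ᴴ * WImd 1 H₂ z
        - WImd 1 H₁ z * (H₁ z)⁻¹ * (P z)ᴴ * H₂ z := by
      rw [WIcov]
      simp only [Matrix.conjTranspose_sub, Matrix.conjTranspose_add, Matrix.conjTranspose_mul,
        WI_inv_herm (p1 z hz), WI_inv_herm (p2 z hz), ← hH1, ← hH2, Matrix.sub_mul, Matrix.add_mul]
      have k1 : (P z)ᴴ * (WImd 1 H₂ z * (H₂ z)⁻¹) * H₂ z = (P z)ᴴ * WImd 1 H₂ z := by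
        rw [Matrix.mul_assoc, Matrix.mul_assoc, Matrix.nonsing_inv_mul _ (u2 z hz), Matrix.mul_one]
      rw [k1]
    have key : dzb (fun w => dz (fun v => ((nn2 (H₁ v) (H₂ v) (P v) : ℝ) : ℂ)) w) z
        = WIip (H₁ z) (H₂ z) (WIcov H₁ H₂ P z) (WIcov H₁ H₂ P z)
          + ((W z : ℝ) : ℂ) * WIip (H₁ z) (H₂ z)
            (P z * adj (H₁ z) (A₁ z) - adj (H₂ z) (A₂ z) * P z)
            (P z * adj (H₁ z) (A₁ z) - adj (H₂ z) (A₂ z) * P z) := by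
      rw [WI_dzb, WIdd_congr (g := fun w =>
        trace ((H₁ w)⁻¹ * (P w)ᴴ * H₂ w * WIcov H₁ H₂ P w))]
      swap
      · filter_upwards [hΩ.mem_nhds hz] with w hw
        exact hfirst w hw
      rw [WIdd_trace (WID_mul (WID_mul (WID_mul D1 dQ) D2) dC),
        WImd_mul (WID_mul (WID_mul D1 dQ) D2) dC, WImd_mul (WID_mul D1 dQ) D2, WImd_mul D1 dQ,
        WI_md_inv hΩ c1' u1 hz, hQ1, hcov, Matrix.mul_smul, Matrix.trace_add, Matrix.trace_smul,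
        WI_alg (p1 z hz) (p2 z hz) (hint z hz), smul_eq_mul]
      congr 1
      have k2 : WIip (H₁ z) (H₂ z) (WIcov H₁ H₂ P z) (WIcov H₁ H₂ P z)
          = trace ((H₁ z)⁻¹ * ((WIcov H₁ H₂ P z)ᴴ * H₂ z) * WIcov H₁ H₂ P z) := by
        rw [WIip]
        simp only [Matrix.mul_assoc]
      rw [k2, hstar]
      congr 1
      rw [Matrix.mul_sub, Matrix.mul_add]
      simp only [Matrix.add_mul, Matrix.sub_mul, Matrix.neg_mul, Matrix.mul_assoc]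
      abel
    have hlw := hLW (fun w => nn2 (H₁ w) (H₂ w) (P w)) z (hsm.contDiffAt (hΩ.mem_nhds hz))
    rw [key, ← (WI_real (p1 z hz) (p2 z hz) _).1, ← (WI_real (p1 z hz) (p2 z hz) _).1] at hlw
    exact_mod_cast hlw
  · rw [hfirst z hz]
    exact WI_cs (p1 z hz) (p2 z hz) _ _

end MAIN

end

end Pool.Agent.DL
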